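import Mathlib
import Pool.Agent.W894.HT.Defs

/-!
Project HT (helper894): the first component of the dual word sum.
-/

set_option autoImplicit false

namespace Pool.Agent.W928.HTDfst

open Pool.Agent.W894.HT

theorem main : S_DFST := by
  intro A _ φ fin v l
  induction l with
  | nil =>
    intro x κ
    rfl
  | cons u l ih =>
    intro x κ
    rw [Rr, Rr, TrivSqZeroExt.fst_add, TrivSqZeroExt.fst_mul, ih u κ]
    have h1 : (dl φ v x u).fst = φ x u := by
      unfold dl
      rw [TrivSqZeroExt.fst_add, TrivSqZeroExt.fst_inl, TrivSqZeroExt.fst_inr, add_zero]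
    rw [h1]
    congr 1
    split_ifs with h
    · exact ih u _
    · rfl

end Pool.Agent.W928.HTDfst
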