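import Pool.Agent.Helper397.T4

/-!
# A `K₄`-free graph on `ω₁ × ω₁` without independent sets of type `ω₁ · ω`, from CH

Points are pairs `(column, row)`.  `D α ξ` is the set of the neighbours of the point `(ξ, α)`
that lie below row `α`; they all lie in columns to the right of `ξ`.
-/

set_option autoImplicit false

namespace Pool.Agent.W928.Sq

open Pool.Agent.Helper397.T1 Pool.Agent.Helper397.T4
open Ordinal

/-- Points. -/
abbrev P : Type := I1 × I1

/-- `y` is a lower neighbour of `x`. -/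
def Dn (D : I1 → I1 → Set P) (x y : P) : Prop := y ∈ D x.2 x.1

/-- Adjacency. -/
def Adj (D : I1 → I1 → Set P) (x y : P) : Prop := Dn D x y ∨ Dn D y x

/-- The region in which the lower neighbours of `(ξ, α)` are chosen. -/
def Reg (α ξ : I1) : Set P := {x | ξ < x.1 ∧ x.1 < x.2 ∧ x.2 < α}

/-- Two points that may be together in the lower neighbourhood of a point of column `ξ`. -/
def Compat (e : I1 → I1 → ℕ) (D : I1 → I1 → Set P) (ξ : I1) (x y : P) : Prop :=
  x.1 ≠ y.1 ∧ (Dn D x y → e y.1 ξ < e y.1 x.1) ∧ (Dn D y x → e x.1 ξ < e x.1 y.1)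

theorem Compat.symm {e : I1 → I1 → ℕ} {D : I1 → I1 → Set P} {ξ : I1} {x y : P}
    (h : Compat e D ξ x y) : Compat e D ξ y x := ⟨h.1.symm, h.2.2, h.2.1⟩

/-- Triangles. -/
def Tri (D : I1 → I1 → Set P) (x y z : P) : Prop := Adj D x y ∧ Adj D y z ∧ Adj D x z

theorem Adj.symm {D : I1 → I1 → Set P} {x y : P} (h : Adj D x y) : Adj D y x := Or.symm h

/-- `x` can be added to the set `F`. -/
def Ok (e : I1 → I1 → ℕ) (D : I1 → I1 → Set P) (α ξ : I1) (F : Finset P) (x : P) : Prop :=
  x ∈ Reg α ξ ∧ (∀ y ∈ F, Compat e D ξ x y) ∧ ∀ y ∈ F, ∀ z ∈ F, ¬ Tri D x y z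

/-- The task `A` can always be met. -/
def Good (e : I1 → I1 → ℕ) (D : I1 → I1 → Set P) (α ξ : I1) (A : Set P) : Prop :=
  ∀ F : Finset P, (∀ x ∈ F, x ∈ Reg α ξ) → ∃ x ∈ A, Ok e D α ξ F x

/-- The requirements on the lower neighbourhood `N` of `(ξ, α)`. -/
def Req (e : I1 → I1 → ℕ) (D : I1 → I1 → Set P) (T : I1 → Set P) (α ξ : I1) (N : Set P) : Prop :=
  N ⊆ Reg α ξ ∧ (∀ x ∈ N, ∀ y ∈ N, x ≠ y → Compat e D ξ x y) ∧
    (∀ x ∈ N, ∀ y ∈ N, ∀ z ∈ N, ¬ Tri D x y z) ∧
    ∀ β, β < α → Good e D α ξ (T β) → ∃ x ∈ N, x ∈ T β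

theorem irrefl_of {D : I1 → I1 → Set P} {α ξ : I1} (hD : ∀ β η, β < α → D β η ⊆ Reg β η)
    {x : P} (hx : x ∈ Reg α ξ) : ¬ Adj D x x := by
  have h : ¬ Dn D x x := fun h => lt_irrefl _ (hD x.2 x.1 hx.2.2 h).2.2
  rintro (h' | h')
  · exact h h'
  · exact h h'

theorem exists_N (e : I1 → I1 → ℕ) (D : I1 → I1 → Set P) (T : I1 → Set P) (α ξ : I1)
    (hD : ∀ β η, β < α → D β η ⊆ Reg β η) : ∃ N, Req e D T α ξ N := by
  classical
  by_cases hQ : ∃ β, β < α ∧ Good e D α ξ (T β)
  · obtain ⟨β0, hβ0⟩ := hQ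
    have hc : {β | β < α ∧ Good e D α ξ (T β)}.Countable :=
      (countable_Iio α).mono fun β hβ => hβ.1
    obtain ⟨t, ht⟩ := hc.exists_eq_range ⟨β0, hβ0⟩
    have htG : ∀ k, Good e D α ξ (T (t k)) := by
      intro k
      have : t k ∈ {β | β < α ∧ Good e D α ξ (T β)} := by rw [ht]; exact ⟨k, rfl⟩
      exact this.2
    have hne : Nonempty P := ⟨(α, α)⟩
    choose! g hg1 hg2 using htG
    let F : ℕ → Finset P := fun n => Nat.rec ∅ (fun k F => insert (g k F) F) n
    have hF0 : F 0 = ∅ := rfl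
    have hFs : ∀ k, F (k + 1) = insert (g k (F k)) (F k) := fun k => rfl
    have hreg : ∀ k, ∀ x ∈ F k, x ∈ Reg α ξ := by
      intro k
      induction k with
      | zero => intro x hx; rw [hF0] at hx; simp at hx
      | succ k ih =>
        intro x hx
        rw [hFs, Finset.mem_insert] at hx
        rcases hx with rfl | hx
        · exact (hg2 k (F k) ih).1
        · exact ih x hx
    have hmono : ∀ k l, k ≤ l → F k ⊆ F l := by
      intro k l hkl
      induction hkl with
      | refl => exact Finset.Subset.refl _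
      | step _ ih => exact ih.trans (by rw [hFs]; exact Finset.subset_insert _ _)
    have hcomp : ∀ k, ∀ x ∈ F k, ∀ y ∈ F k, x ≠ y → Compat e D ξ x y := by
      intro k
      induction k with
      | zero => intro x hx; rw [hF0] at hx; simp at hx
      | succ k ih =>
        intro x hx y hy hxy
        rw [hFs, Finset.mem_insert] at hx hy
        have hk := hg2 k (F k) (hreg k)
        rcases hx with rfl | hx
        · rcases hy with rfl | hy
          · exact absurd rfl hxy
          · exact hk.2.1 y hy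
        · rcases hy with rfl | hy
          · exact (hk.2.1 x hx).symm
          · exact ih x hx y hy hxy
    have htri : ∀ k, ∀ x ∈ F k, ∀ y ∈ F k, ∀ z ∈ F k, ¬ Tri D x y z := by
      intro k
      induction k with
      | zero => intro x hx; rw [hF0] at hx; simp at hx
      | succ k ih =>
        intro x hx y hy z hz hT
        have hxr := hreg (k+1) x hx
        have hyr := hreg (k+1) y hy
        have hzr := hreg (k+1) z hz
        have hxy : x ≠ y := fun h => irrefl_of hD hxr (by have := hT.1; rwa [← h] at this)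
        have hyz : y ≠ z := fun h => irrefl_of hD hyr (by have := hT.2.1; rwa [← h] at this)
        have hxz : x ≠ z := fun h => irrefl_of hD hxr (by have := hT.2.2; rwa [← h] at this)
        rw [hFs, Finset.mem_insert] at hx hy hz
        have hk := hg2 k (F k) (hreg k)
        rcases hx with hx | hx
        · rcases hy with hy | hy
          · exact hxy (hx.trans hy.symm)
          · rcases hz with hz | hz
            · exact hxz (hx.trans hz.symm)
            · rw [hx] at hT; exact hk.2.2 y hy z hz hT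
        · rcases hy with hy | hy
          · rcases hz with hz | hz
            · exact hyz (hy.trans hz.symm)
            · rw [hy] at hT; exact hk.2.2 x hx z hz ⟨hT.1.symm, hT.2.2, hT.2.1⟩
          · rcases hz with hz | hz
            · rw [hz] at hT; exact hk.2.2 x hx y hy ⟨hT.2.2.symm, hT.1, hT.2.1.symm⟩
            · exact ih x hx y hy z hz hT
    refine ⟨{x | ∃ k, x ∈ F k}, ?_, ?_, ?_, ?_⟩
    · rintro x ⟨k, hx⟩; exact hreg k x hx
    · rintro x ⟨k, hx⟩ y ⟨l, hy⟩ hxy
      exact hcomp (max k l) x (hmono k _ (le_max_left _ _) hx) y (hmono l _ (le_max_right _ _) hy) hxy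
    · rintro x ⟨k, hx⟩ y ⟨l, hy⟩ z ⟨m, hz⟩
      exact htri (max (max k l) m) x
        (hmono k _ ((le_max_left _ _).trans (le_max_left _ _)) hx) y
        (hmono l _ ((le_max_right _ _).trans (le_max_left _ _)) hy) z (hmono m _ (le_max_right _ _) hz)
    · intro β hβ hG
      have : β ∈ {β | β < α ∧ Good e D α ξ (T β)} := ⟨hβ, hG⟩
      rw [ht] at this
      obtain ⟨k, rfl⟩ := this
      exact ⟨g k (F k), ⟨k + 1, by rw [hFs]; exact Finset.mem_insert_self _ _⟩, hg1 k (F k) (hreg k)⟩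
  · push Not at hQ
    refine ⟨∅, Set.empty_subset _, ?_, ?_, ?_⟩
    · intro x hx; exact absurd hx (Set.notMem_empty x)
    · intro x hx; exact absurd hx (Set.notMem_empty x)
    · intro β hβ hG; exact absurd hG (hQ β hβ)

theorem Dn_congr {D D' : I1 → I1 → Set P} {α : I1} (h : ∀ β, β < α → D β = D' β) {x : P}
    (hx : x.2 < α) (y : P) : Dn D x y ↔ Dn D' x y := by
  unfold Dn; rw [h _ hx]

/-- The construction. -/
theorem exists_D (e : I1 → I1 → ℕ) (T : I1 → Set P) :
    ∃ D : I1 → I1 → Set P, ∀ α ξ, Req e D T α ξ (D α ξ) := by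
  classical
  letI : Inhabited (I1 → Set P) := ⟨fun _ => ∅⟩
  obtain ⟨D, hD⟩ := exists_rec (I := I1) (X := I1 → Set P)
    (fun α D N => (∀ β η, β < α → D β η ⊆ Reg β η) → ∀ ξ, Req e D T α ξ (N ξ))
    (by
      intro α D D' N h hN hD' ξ
      have hsub : ∀ β η, β < α → D β η ⊆ Reg β η := by
        intro β η hβ; rw [h β hβ]; exact hD' β η hβ
      obtain ⟨h1, h2, h3, h4⟩ := hN hsub ξ
      have hDn : ∀ x y : P, x.2 < α → (Dn D x y ↔ Dn D' x y) := fun x y hx => Dn_congr h hx y
      have hAdj : ∀ x y : P, x.2 < α → y.2 < α → (Adj D x y ↔ Adj D' x y) := by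
        intro x y hx hy
        unfold Adj; rw [hDn x y hx, hDn y x hy]
      have hTri : ∀ x y z : P, x.2 < α → y.2 < α → z.2 < α → (Tri D x y z ↔ Tri D' x y z) := by
        intro x y z hx hy hz
        unfold Tri; rw [hAdj x y hx hy, hAdj y z hy hz, hAdj x z hx hz]
      have hCompat : ∀ x y : P, x.2 < α → y.2 < α → (Compat e D ξ x y ↔ Compat e D' ξ x y) := by
        intro x y hx hy
        unfold Compat; rw [hDn x y hx, hDn y x hy]
      refine ⟨h1, ?_, ?_, ?_⟩
      · intro x hx y hy hxy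
        exact (hCompat x y (h1 hx).2.2 (h1 hy).2.2).1 (h2 x hx y hy hxy)
      · intro x hx y hy z hz hT
        exact h3 x hx y hy z hz ((hTri x y z (h1 hx).2.2 (h1 hy).2.2 (h1 hz).2.2).2 hT)
      · intro β hβ hG
        refine h4 β hβ ?_
        intro F hF
        obtain ⟨x, hx, hok⟩ := hG F hF
        refine ⟨x, hx, hok.1, ?_, ?_⟩
        · intro y hy
          exact (hCompat x y hok.1.2.2 (hF y hy).2.2).2 (hok.2.1 y hy)
        · intro y hy z hz hT
          exact hok.2.2 y hy z hz ((hTri x y z hok.1.2.2 (hF y hy).2.2 (hF z hz).2.2).1 hT))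
    (by
      intro α D
      by_cases h : ∀ β η, β < α → D β η ⊆ Reg β η
      · choose N hN using fun ξ => exists_N e D T α ξ h
        exact ⟨N, fun _ => hN⟩
      · exact ⟨fun _ => ∅, fun h' => absurd h' h⟩)
  have hall : ∀ α, ∀ ξ, D α ξ ⊆ Reg α ξ := by
    intro α
    induction α using WellFoundedLT.induction with
    | ind α ih => intro ξ; exact (hD α (fun β η hβ => ih β hβ η) ξ).1
  exact ⟨D, fun α => hD α (fun β η _ => hall β η)⟩

/-- The key step: a sequence of infinite sets in increasing columns is a good task. -/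
theorem good_of (e : I1 → I1 → ℕ) (he : ∀ η, Set.InjOn (e η) (Set.Iio η))
    (D : I1 → I1 → Set P) (T : I1 → Set P) (hD : ∀ α ξ, Req e D T α ξ (D α ξ))
    (c : ℕ → I1) (hc : StrictMono c) (A : ℕ → Set P) (hA : ∀ n, (A n).Infinite)
    (hAc : ∀ n, ∀ x ∈ A n, x.1 = c n) (hAr : ∀ n, ∀ x ∈ A n, x.1 < x.2)
    (α : I1) (hα : ∀ n, ∀ x ∈ A n, x.2 < α) (l : ℕ) :
    Good e D α (c l) (⋃ n, A n) := by
  classical
  intro F hF
  have hDR : ∀ β η, D β η ⊆ Reg β η := fun β η => (hD β η).1
  -- for each element of `F` and each number, the columns `c n` are eventually far away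
  have hfar : ∀ z : P, ∀ m : ℕ, ∃ n0, ∀ n, n0 ≤ n → c n < z.1 → m < e z.1 (c n) := by
    intro z m
    by_contra hcon
    push Not at hcon
    -- infinitely many n with small value
    have hinf : {n | c n < z.1 ∧ e z.1 (c n) ≤ m}.Infinite := by
      rw [Set.infinite_iff_exists_gt]
      intro a
      obtain ⟨n, h1, h2, h3⟩ := hcon (a + 1)
      exact ⟨n, ⟨h2, h3⟩, by omega⟩
    have hinj : Set.InjOn (fun n => e z.1 (c n)) {n | c n < z.1 ∧ e z.1 (c n) ≤ m} := by
      intro a ha b hb hab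
      exact hc.injective (he z.1 ha.1 hb.1 hab)
    have himg := hinf.image hinj
    refine himg ((Set.finite_Iic m).subset ?_)
    rintro _ ⟨n, hn, rfl⟩
    exact hn.2
  have hcol : ∀ z : P, ∃ n0, ∀ n, n0 ≤ n → (c n < z.1 ∨ z.1 < c n) := by
    intro z
    by_cases h : ∃ n, z.1 ≤ c n
    · obtain ⟨n, hn⟩ := h
      exact ⟨n + 1, fun m hm => Or.inr (hn.trans_lt (hc (by omega)))⟩
    · push Not at h
      exact ⟨0, fun n _ => Or.inl (h n)⟩
  -- choose n
  choose n1 hn1 using hfar
  choose n2 hn2 using hcol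
  let M : ℕ := (F.sup fun z => n1 z (e z.1 (c l))) + (F.sup n2) + (l + 1) +
    ((F ×ˢ F).sup fun p => n1 p.2 (e p.2.1 p.1.1))
  have hM1 : ∀ z ∈ F, n1 z (e z.1 (c l)) ≤ M := by
    intro z hz
    have := Finset.le_sup (f := fun z => n1 z (e z.1 (c l))) hz
    simp only [M]; omega
  have hM2 : ∀ z ∈ F, n2 z ≤ M := by
    intro z hz
    have := Finset.le_sup (f := n2) hz
    simp only [M]; omega
  have hM3 : l < M := by simp only [M]; omega
  have hM4 : ∀ y ∈ F, ∀ z ∈ F, n1 z (e z.1 y.1) ≤ M := by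
    intro y hy z hz
    have := Finset.le_sup (f := fun p : P × P => n1 p.2 (e p.2.1 p.1.1)) (Finset.mk_mem_product hy hz)
    simp only [M]
    simp only at this
    omega
  -- choose x
  have hfin : {x | x ∈ A M ∧ ∃ z ∈ F, Dn D z x}.Finite := by
    have hsub : {x | x ∈ A M ∧ ∃ z ∈ F, Dn D z x} ⊆ ⋃ z ∈ F, {x | x ∈ A M ∧ Dn D z x} := by
      rintro x ⟨hx, z, hz, hzx⟩
      exact Set.mem_iUnion₂.2 ⟨z, hz, hx, hzx⟩
    refine Set.Finite.subset (Set.Finite.biUnion F.finite_toSet fun z _ => ?_) hsub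
    refine Set.Subsingleton.finite ?_
    rintro x ⟨hx, hzx⟩ y ⟨hy, hzy⟩
    by_contra hne
    exact ((hD z.2 z.1).2.1 x hzx y hzy hne).1 ((hAc M x hx).trans (hAc M y hy).symm)
  obtain ⟨x, hx, hx'⟩ := ((hA M).sdiff hfin).nonempty
  have hx2 : ∀ z ∈ F, ¬ Dn D z x := fun z hz h => hx' ⟨hx, z, hz, h⟩
  have hxc := hAc M x hx
  refine ⟨x, Set.mem_iUnion.2 ⟨M, hx⟩, ⟨?_, hAr M x hx, hα M x hx⟩, ?_, ?_⟩
  · rw [hxc]; exact hc hM3
  · intro z hz
    refine ⟨?_, ?_, fun h => absurd h (hx2 z hz)⟩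
    · rw [hxc]
      rcases hn2 z M (hM2 z hz) with h | h
      · exact h.ne
      · exact h.ne'
    · intro h
      have hlt : x.1 < z.1 := (hDR _ _ h).1
      rw [hxc] at hlt ⊢
      exact hn1 z _ M (hM1 z hz) hlt
  · intro y hy z hz hT
    have hxy : Dn D x y := hT.1.resolve_right (hx2 y hy)
    have hxz : Dn D x z := hT.2.2.resolve_right (hx2 z hz)
    have hyx : y ≠ z := by
      intro h
      have := hT.2.1
      rw [← h] at this
      have h' : ¬ Dn D y y := fun h => lt_irrefl _ (hDR y.2 y.1 h).2.2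
      rcases this with h1 | h1
      · exact h' h1
      · exact h' h1
    have hcomp := (hD x.2 x.1).2.1 y hxy z hxz hyx
    rcases hT.2.1 with h1 | h1
    · have h2 := hcomp.2.1 h1
      have hlt : x.1 < z.1 := (hDR _ _ hxz).1
      have h3 := hn1 z (e z.1 y.1) M (hM4 y hy z hz) (by rw [← hxc]; exact hlt)
      rw [← hxc] at h3
      omega
    · have h2 := hcomp.2.2 h1
      have hlt : x.1 < y.1 := (hDR _ _ hxy).1
      have h3 := hn1 y (e y.1 z.1) M (hM4 z hz y hy) (by rw [← hxc]; exact hlt)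
      rw [← hxc] at h3
      omega

end Pool.Agent.W928.Sq
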