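import Pool.Agent.W928.SqCore

set_option autoImplicit false

namespace Pool.Agent.W928.Sq

open Pool.Agent.Helper397.T1 Pool.Agent.Helper397.T4
open Ordinal

theorem exists_pt {a : Ordinal.{0}} (ha : a < w1 * w1) : ∃ p : P, pt p = a := by
  have h1 : a / w1 < w1 := (Ordinal.lt_mul_iff_div_lt w1_pos).mp ha
  obtain ⟨i, hi⟩ := exists_ofI h1
  obtain ⟨j, hj⟩ := exists_ofI (Ordinal.mod_lt a w1_pos)
  refine ⟨(i, j), ?_⟩
  unfold pt
  simp only
  rw [hi, hj]
  exact Ordinal.div_add_mod a w1

theorem exists_e : ∃ e : I1 → I1 → ℕ, ∀ η, Set.InjOn (e η) (Set.Iio η) := by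
  have h : ∀ η : I1, ∃ f : I1 → ℕ, Set.InjOn f (Set.Iio η) := fun η =>
    Set.countable_iff_exists_injOn.1 (countable_Iio η)
  choose e he using h
  exact ⟨e, he⟩

theorem exists_T (CH : Cardinal.continuum.{0} ≤ Cardinal.aleph 1) :
    ∃ T : I1 → Set P, ∀ s : ℕ → P, ∃ β, T β = Set.range s := by
  have hP : Cardinal.mk P = Cardinal.aleph 1 := by
    simp only [P, Cardinal.mk_prod, Cardinal.lift_id, mk_I1]
    exact Cardinal.mul_eq_self (Cardinal.aleph0_le_aleph 1)
  have hseq : Cardinal.mk (ℕ → P) ≤ Cardinal.mk I1 := by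
    rw [mk_I1]
    calc Cardinal.mk (ℕ → P) = Cardinal.mk P ^ Cardinal.aleph0 := by simp
      _ = Cardinal.aleph 1 ^ Cardinal.aleph0 := by rw [hP]
      _ ≤ Cardinal.continuum ^ Cardinal.aleph0 :=
        Cardinal.power_le_power_right Cardinal.aleph_one_le_continuum
      _ = Cardinal.continuum := Cardinal.continuum_power_aleph0
      _ ≤ Cardinal.aleph 1 := CH
  obtain ⟨j⟩ := Cardinal.le_def _ _ |>.1 hseq
  have : Nonempty I1 := by
    have := uncountable_I1
    infer_instance
  have : Nonempty (ℕ → P) := ⟨fun _ => (Classical.arbitrary I1, Classical.arbitrary I1)⟩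
  refine ⟨fun β => Set.range (Function.invFun j β), fun s => ⟨j s, ?_⟩⟩
  simp only [Function.leftInverse_invFun j.injective s]

theorem exists_ub {R : Set I1} (hR : R.Countable) : ∃ a, ∀ r ∈ R, r < a := by
  have hc : (⋃ r ∈ R, Set.Iic r).Countable := hR.biUnion fun r _ => countable_Iic r
  by_contra hcon
  push Not at hcon
  refine uncountable_I1.not_countable (Set.countable_univ_iff.mp (hc.mono ?_))
  intro a _
  obtain ⟨r, hr, har⟩ := hcon a
  exact Set.mem_iUnion₂.2 ⟨r, hr, har⟩

theorem main (CH : Cardinal.continuum.{0} ≤ Cardinal.aleph 1) :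
    ∃ c : Ordinal.{0} → Ordinal.{0} → Prop,
      (¬ ∃ f : Ordinal.{0} → Ordinal.{0},
          StrictMonoOn f (Set.Iio (w1 * ω)) ∧
          (∀ α, α < w1 * ω → f α < w1 * w1) ∧
          (∀ α β, α < β → β < w1 * ω → c (f α) (f β))) ∧
      (¬ ∃ g : Fin 4 → Ordinal.{0}, StrictMono g ∧ (∀ i, g i < w1 * w1) ∧
          (∀ i j, i < j → ¬ c (g i) (g j))) := by
  classical
  obtain ⟨e, he⟩ := exists_e
  obtain ⟨T, hT⟩ := exists_T CH
  obtain ⟨D, hD⟩ := exists_D e T
  have hDR : ∀ β η, D β η ⊆ Reg β η := fun β η => (hD β η).1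
  have hcolD : ∀ x y : P, Dn D x y → pt x < pt y := fun x y h => pt_lt_of_col (hDR _ _ h).1
  refine ⟨fun a b => ∀ x y : P, pt x = a → pt y = b → ¬ Dn D x y, ?_, ?_⟩
  · rintro ⟨f, hf, hfb, hfc⟩
    have hlt : ∀ (n : ℕ) (i : I1), w1 * (n : Ordinal.{0}) + ofI i < w1 * ω := by
      intro n i
      calc w1 * (n : Ordinal.{0}) + ofI i < w1 * (n : Ordinal.{0}) + w1 := by
            gcongr; exact ofI_lt i
        _ = w1 * ((n : Ordinal.{0}) + 1) := by rw [mul_add, mul_one]
        _ ≤ w1 * ω := by
          gcongr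
          exact_mod_cast (Ordinal.natCast_lt_omega0 (n+1)).le
    have hmono1 : ∀ (n m : ℕ) (i j : I1), n < m →
        w1 * (n : Ordinal.{0}) + ofI i < w1 * (m : Ordinal.{0}) + ofI j := by
      intro n m i j hnm
      calc w1 * (n : Ordinal.{0}) + ofI i < w1 * (n : Ordinal.{0}) + w1 := by
            gcongr; exact ofI_lt i
        _ = w1 * ((n : Ordinal.{0}) + 1) := by rw [mul_add, mul_one]
        _ ≤ w1 * (m : Ordinal.{0}) := by
          gcongr
          exact_mod_cast hnm
        _ ≤ _ := le_self_add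
    have hmono2 : ∀ (n : ℕ) (i j : I1), i < j →
        w1 * (n : Ordinal.{0}) + ofI i < w1 * (n : Ordinal.{0}) + ofI j := by
      intro n i j hij
      gcongr
      exact ofI_lt_ofI.2 hij
    choose q hq using fun (n : ℕ) (i : I1) => exists_pt (hfb _ (hlt n i))
    have hq1 : ∀ (n m : ℕ) (i j : I1), n < m → pt (q n i) < pt (q m j) := by
      intro n m i j hnm
      rw [hq, hq]
      exact hf (hlt n i) (hlt m j) (hmono1 n m i j hnm)
    have hq2 : ∀ (n : ℕ) (i j : I1), i < j → pt (q n i) < pt (q n j) := by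
      intro n i j hij
      rw [hq, hq]
      exact hf (hlt n i) (hlt n j) (hmono2 n i j hij)
    have hqinj : ∀ (n : ℕ), Function.Injective (q n) := by
      intro n i j hij
      rcases lt_trichotomy i j with h | h | h
      · have := hq2 n i j h; rw [hij] at this; exact absurd this (lt_irrefl _)
      · exact h
      · have := hq2 n j i h; rw [hij] at this; exact absurd this (lt_irrefl _)
    have hcolle : ∀ x y : P, pt x < pt y → x.1 ≤ y.1 := by
      intro x y h
      by_contra hcon
      push Not at hcon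
      exact lt_asymm h (pt_lt_of_col hcon)
    have : Nonempty I1 := by
      have := uncountable_I1
      infer_instance
    let i0 : I1 := Classical.arbitrary I1
    have hI : ¬ (Set.univ : Set I1).Countable := fun h =>
      uncountable_I1.not_countable (Set.countable_univ_iff.mp h)
    have hfib : ∀ n, ∃ c : I1, ¬ {i | (q n i).1 = c}.Countable := by
      intro n
      have hb : ∀ i, (q n i).1 ≤ (q (n+1) i0).1 := fun i => hcolle _ _ (hq1 n (n+1) i i0 (Nat.lt_succ_self n))
      have : Countable (Set.Iic (q (n+1) i0).1) := (countable_Iic _).to_subtype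
      obtain ⟨b, hb'⟩ := exists_fiber hI (fun i => (⟨(q n i).1, hb i⟩ : Set.Iic (q (n+1) i0).1))
      refine ⟨b.1, fun h => hb' (h.mono ?_)⟩
      rintro i ⟨-, hi⟩
      exact congrArg Subtype.val hi
    choose c hc using hfib
    -- rows are unbounded in each fibre
    have hrow : ∀ n (a : I1), ¬ {i | (q n i).1 = c n ∧ a < (q n i).2}.Countable := by
      intro n a h
      apply hc n
      have h2 : {i | (q n i).1 = c n ∧ (q n i).2 ≤ a}.Countable := by
        refine Set.Countable.mono (s₂ := (q n) ⁻¹' ({c n} ×ˢ Set.Iic a)) ?_ ?_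
        · rintro i ⟨h1, h2⟩
          exact ⟨h1, h2⟩
        · exact ((Set.countable_singleton _).prod (countable_Iic a)).preimage (hqinj n)
      refine (h.union h2).mono ?_
      intro i hi
      rcases lt_or_ge a (q n i).2 with h3 | h3
      · exact Or.inl ⟨hi, h3⟩
      · exact Or.inr ⟨hi, h3⟩
    have hcmono : StrictMono c := by
      refine strictMono_nat_of_lt_succ fun n => ?_
      have hne : ∀ m, ∃ i, (q m i).1 = c m := by
        intro m
        by_contra hcon
        push Not at hcon
        apply hc m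
        rw [Set.eq_empty_of_forall_notMem (s := {i | (q m i).1 = c m}) hcon]
        exact Set.countable_empty
      obtain ⟨j, hj⟩ := hne (n+1)
      obtain ⟨i, hi⟩ := hne n
      have hle : c n ≤ c (n+1) := by
        rw [← hi, ← hj]; exact hcolle _ _ (hq1 n (n+1) i j (Nat.lt_succ_self n))
      rcases hle.lt_or_eq with h | h
      · exact h
      · exfalso
        apply hrow n (q (n+1) j).2
        have : {i | (q n i).1 = c n ∧ (q (n+1) j).2 < (q n i).2} = ∅ := by
          rw [Set.eq_empty_iff_forall_notMem]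
          rintro i ⟨h1, h2⟩
          have h3 := hq1 n (n+1) i j (Nat.lt_succ_self n)
          have h4 : pt (q (n+1) j) < pt (q n i) := pt_lt_of_row (by rw [h1, hj, h]) h2
          exact lt_asymm h3 h4
        rw [this]
        exact Set.countable_empty
    -- infinite countable subsets
    have hinf : ∀ n, {i | (q n i).1 = c n ∧ c n < (q n i).2}.Infinite := by
      intro n h
      exact hrow n (c n) h.countable
    let em : ∀ n, ℕ → I1 := fun n k => ((hinf n).natEmbedding _ k : I1)
    have hem : ∀ n k, (q n (em n k)).1 = c n ∧ c n < (q n (em n k)).2 := fun n k =>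
      ((hinf n).natEmbedding _ k).2
    have heminj : ∀ n, Function.Injective (em n) := fun n a b hab =>
      ((hinf n).natEmbedding _).injective (Subtype.ext hab)
    let A : ℕ → Set P := fun n => Set.range fun k => q n (em n k)
    have hA : ∀ n, (A n).Infinite := fun n =>
      Set.infinite_range_of_injective ((hqinj n).comp (heminj n))
    have hAc : ∀ n, ∀ x ∈ A n, x.1 = c n := by
      rintro n _ ⟨k, rfl⟩; exact (hem n k).1
    have hAr : ∀ n, ∀ x ∈ A n, x.1 < x.2 := by
      rintro n _ ⟨k, rfl⟩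
      simp only
      rw [(hem n k).1]; exact (hem n k).2
    have hAcount : (⋃ n, A n).Countable := Set.countable_iUnion fun n => Set.countable_range _
    obtain ⟨s, hs⟩ := hAcount.exists_eq_range
      (by obtain ⟨x, hx⟩ := (hA 0).nonempty; exact ⟨x, Set.mem_iUnion.2 ⟨0, hx⟩⟩)
    obtain ⟨β, hβ⟩ := hT s
    obtain ⟨a0, ha0⟩ := exists_ub (hAcount.image Prod.snd)
    -- a high point in the fibre 0
    obtain ⟨i, hi1, hi2⟩ : ∃ i, (q 0 i).1 = c 0 ∧ max a0 β < (q 0 i).2 := by
      by_contra hcon
      push Not at hcon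
      apply hrow 0 (max a0 β)
      have : {i | (q 0 i).1 = c 0 ∧ max a0 β < (q 0 i).2} = ∅ := by
        rw [Set.eq_empty_iff_forall_notMem]
        rintro i ⟨h1, h2⟩
        exact absurd h2 (not_lt.2 (hcon i h1))
      rw [this]
      exact Set.countable_empty
    have hgood : Good e D (q 0 i).2 (c 0) (⋃ n, A n) := by
      refine good_of e he D T hD c hcmono A hA hAc hAr _ ?_ 0
      intro n x hx
      exact (ha0 x.2 ⟨x, Set.mem_iUnion.2 ⟨n, hx⟩, rfl⟩).trans ((le_max_left _ _).trans_lt hi2)
    obtain ⟨x, hxD, hxT⟩ := (hD (q 0 i).2 (c 0)).2.2.2 β ((le_max_right _ _).trans_lt hi2)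
      (by rw [hβ, ← hs]; exact hgood)
    rw [hβ, ← hs] at hxT
    obtain ⟨n, k, rfl⟩ := Set.mem_iUnion.1 hxT
    have hdn : Dn D (q 0 i) (q n (em n k)) := by
      unfold Dn; rw [hi1]; exact hxD
    have hlt1 := hcolD _ _ hdn
    rw [hq, hq] at hlt1
    have hlt2 := (hf.lt_iff_lt (hlt 0 i) (hlt n (em n k))).1 hlt1
    exact hfc _ _ hlt2 (hlt n (em n k)) _ _ (hq 0 i) (hq n (em n k)) hdn
  · rintro ⟨g, hg, hgb, hgc⟩
    choose p hp using fun i => exists_pt (hgb i)
    have hdn : ∀ i j, i < j → Dn D (p i) (p j) := by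
      intro i j hij
      have := hgc i j hij
      push Not at this
      obtain ⟨x, y, hx, hy, hxy⟩ := this
      rw [← hp i] at hx
      rw [← hp j] at hy
      rw [pt_inj hx, pt_inj hy] at hxy
      exact hxy
    have h01 := hdn 0 1 (by decide)
    have h02 := hdn 0 2 (by decide)
    have h03 := hdn 0 3 (by decide)
    exact (hD (p 0).2 (p 0).1).2.2.1 _ h01 _ h02 _ h03
      ⟨Or.inl (hdn 1 2 (by decide)), Or.inl (hdn 2 3 (by decide)), Or.inl (hdn 1 3 (by decide))⟩

end Pool.Agent.W928.Sq
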